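import Mathlib

/-!
# MP_56a425_co: longest progressions in sumsets of sparse sets

`l θ = 3` exactly for all `θ` in `[1 - log 2 / log 5, 1)`, and `l θ ≤ p - 2` for every prime
`p ≥ 5` and every `θ` in `[1 - log ((p-1)/2) / log p, 1)`.
-/

open Filter Finset
open scoped Pointwise

namespace Pool.Agent.Results.MP_56a425_co.ExactValue

/-- `S` contains an arithmetic progression `a, a + d, …, a + (k-1) d` with `d ≥ 1`. -/
def HasAP (S : Finset ℤ) (k : ℕ) : Prop :=
  ∃ a d : ℤ, 1 ≤ d ∧ ∀ i : ℕ, i < k → a + i * d ∈ S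

/-- `lp S`: the largest `k` such that `S` contains a progression of length `k`. -/
noncomputable def lp (S : Finset ℤ) : ℕ := sSup {k | HasAP S k}

/-- the minimum of `lp (A + A)` over all `A ⊆ [N]` with `⌊N ^ (1 - θ)⌋` elements -/
noncomputable def minLp (θ : ℝ) (N : ℕ) : ℕ :=
  sInf {m | ∃ A : Finset ℤ, A ⊆ Finset.Icc 1 (N : ℤ) ∧ A.card = ⌊(N : ℝ) ^ (1 - θ)⌋₊ ∧
    m = lp (A + A)}

/-- `l θ = limsup_{N → ∞} min_A lp (A + A)` -/
noncomputable def l (θ : ℝ) : ℕ∞ := limsup (fun N : ℕ => (minLp θ N : ℕ∞)) atTop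

/-! ### general facts on `lp` -/

lemma hasAP_zero (S : Finset ℤ) : HasAP S 0 := ⟨0, 1, le_rfl, fun i hi => absurd hi (by omega)⟩

lemma hasAP_mono {S : Finset ℤ} {j k : ℕ} (h : j ≤ k) (hk : HasAP S k) : HasAP S j := by
  obtain ⟨a, d, hd, h2⟩ := hk
  exact ⟨a, d, hd, fun i hi => h2 i (by omega)⟩

lemma le_card_of_hasAP {S : Finset ℤ} {k : ℕ} (hk : HasAP S k) : k ≤ S.card := by
  obtain ⟨a, d, hd, h2⟩ := hk
  have h3 : (Finset.range k).card ≤ S.card := by
    apply Finset.card_le_card_of_injOn (fun i : ℕ => a + i * d)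
    · intro i hi
      exact h2 i (by simpa using hi)
    · intro i _ j _ hij
      have h4 : (i : ℤ) * d = j * d := by simpa using hij
      have h5 : (i : ℤ) = j := mul_right_cancel₀ (by omega : d ≠ 0) h4
      exact_mod_cast h5
  simpa using h3

lemma bddAbove_hasAP (S : Finset ℤ) : BddAbove {k | HasAP S k} :=
  ⟨S.card, fun _ hk => le_card_of_hasAP hk⟩

lemma le_lp {S : Finset ℤ} {k : ℕ} (hk : HasAP S k) : k ≤ lp S :=
  le_csSup (bddAbove_hasAP S) hk

lemma lp_lt {S : Finset ℤ} {k : ℕ} (hk : ¬ HasAP S (k + 1)) : lp S ≤ k := by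
  apply csSup_le ⟨0, hasAP_zero S⟩
  intro j hj
  by_contra h
  exact hk (hasAP_mono (by omega) hj)

lemma three_le_lp {A : Finset ℤ} (hA : 2 ≤ A.card) : 3 ≤ lp (A + A) := by
  apply le_lp
  obtain ⟨a, ha, b, hb, hab⟩ := Finset.one_lt_card.1 hA
  wlog h : a < b generalizing a b
  · exact this b hb a ha (Ne.symm hab) (by omega)
  refine ⟨a + a, b - a, by omega, fun i hi => ?_⟩
  interval_cases i
  · simpa using Finset.add_mem_add ha ha
  · have := Finset.add_mem_add ha hb
    have h2 : a + a + ((1 : ℕ) : ℤ) * (b - a) = a + b := by push_cast; ring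
    rw [h2]; exact this
  · have := Finset.add_mem_add hb hb
    have h2 : a + a + ((2 : ℕ) : ℤ) * (b - a) = b + b := by push_cast; ring
    rw [h2]; exact this

/-! ### numbers with small digits -/

/-- all base `p` digits of `n` are `< q` -/
def Good (p q n : ℕ) : Prop := ∀ j, n / p ^ j % p < q

lemma good_mod {p q n : ℕ} (hpq : 2 * q < p + 2) (hn : Good p q n) (j : ℕ) :
    2 * (n % p ^ j) < p ^ j := by
  induction j with
  | zero => simp [Nat.mod_one]
  | succ j ih =>
    rw [Nat.mod_pow_succ]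
    have h1 := hn j
    have h2 : p ^ (j + 1) = p ^ j * p := pow_succ p j
    have h3 : 2 * (n / p ^ j % p) + 1 ≤ p := by omega
    have h4 : p ^ j * (2 * (n / p ^ j % p) + 1) ≤ p ^ j * p := Nat.mul_le_mul_left _ h3
    rw [h2]
    nlinarith

lemma good_add {p q a b : ℕ} (hp : 0 < p) (hpq : 2 * q < p + 2) (ha : Good p q a)
    (hb : Good p q b) (j : ℕ) : (a + b) / p ^ j % p < 2 * q - 1 := by
  have h1 := good_mod hpq ha j
  have h2 := good_mod hpq hb j
  have h3 : 0 < p ^ j := Nat.pow_pos hp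
  have h4 : (a + b) / p ^ j = a / p ^ j + b / p ^ j := by
    apply Nat.add_div_eq_of_add_mod_lt
    omega
  have h5 := ha j
  have h6 := hb j
  rw [h4, Nat.add_mod, Nat.mod_eq_of_lt (by omega)]
  omega

/-- `g k`: write `k` in base `q`, read it in base `p` -/
def g (p q k : ℕ) : ℕ := Nat.ofDigits p (Nat.digits q k)

lemma g_rec {p q : ℕ} (hq : 2 ≤ q) (k : ℕ) : g p q k = k % q + p * g p q (k / q) := by
  rcases Nat.eq_zero_or_pos k with rfl | hk
  · simp [g]
  · unfold g
    rw [Nat.digits_def' (by omega) hk, Nat.ofDigits_cons]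

lemma g_good {p q : ℕ} (hq : 2 ≤ q) (hqp : q ≤ p) (k : ℕ) : Good p q (g p q k) := by
  intro j
  induction j generalizing k with
  | zero =>
    rw [g_rec hq]
    have h1 : k % q < q := Nat.mod_lt _ (by omega)
    simp only [pow_zero, Nat.div_one, Nat.add_mul_mod_self_left]
    rw [Nat.mod_eq_of_lt (by omega)]
    exact h1
  | succ j ih =>
    rw [g_rec hq]
    have h1 : k % q < q := Nat.mod_lt _ (by omega)
    rw [pow_succ', ← Nat.div_div_eq_div_mul, Nat.add_mul_div_left _ _ (by omega : 0 < p),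
      Nat.div_eq_of_lt (by omega : k % q < p), zero_add]
    exact ih _

lemma g_inj {p q : ℕ} (hq : 2 ≤ q) (hqp : q ≤ p) : Function.Injective (g p q) := by
  intro a
  induction a using Nat.strong_induction_on with
  | _ a ih =>
    intro b hab
    have ha := g_rec (p := p) hq a
    have hb := g_rec (p := p) hq b
    have h1 : a % q < q := Nat.mod_lt _ (by omega)
    have h2 : b % q < q := Nat.mod_lt _ (by omega)
    have h3 : a % q = b % q := by
      have h4 : (g p q a) % p = (g p q b) % p := by rw [hab]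
      rw [ha, hb, Nat.add_mul_mod_self_left, Nat.add_mul_mod_self_left,
        Nat.mod_eq_of_lt (by omega : a % q < p), Nat.mod_eq_of_lt (by omega : b % q < p)] at h4
      exact h4
    have h5 : g p q (a / q) = g p q (b / q) := by
      have : p * g p q (a / q) = p * g p q (b / q) := by omega
      exact Nat.eq_of_mul_eq_mul_left (by omega) this
    rcases Nat.eq_zero_or_pos a with rfl | hapos
    · -- a = 0
      by_contra hne
      have hbpos : 0 < b := by omega
      have hgb : g p q b = 0 := by rw [← hab]; simp [g]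
      -- smallest positive `c` with `g c = 0`
      have key : ∀ c, 0 < c → g p q c ≠ 0 := by
        intro c
        induction c using Nat.strong_induction_on with
        | _ c ihc =>
          intro hc h0
          have h6 := g_rec (p := p) hq c
          rw [h0] at h6
          have h7 : c % q = 0 := by omega
          have h8 : p * g p q (c / q) = 0 := by omega
          have h9 : g p q (c / q) = 0 := by
            rcases Nat.mul_eq_zero.1 h8 with h | h
            · omega
            · exact h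
          have h10 : c / q < c := Nat.div_lt_self hc (by omega)
          have h11 : 0 < c / q := by
            rcases Nat.eq_zero_or_pos (c / q) with h | h
            · have := Nat.div_add_mod c q
              rw [h, h7] at this
              omega
            · exact h
          exact ihc _ h10 h11 h9
      exact key b hbpos hgb
    · have h6 : a / q = b / q := ih (a / q) (Nat.div_lt_self hapos (by omega)) h5
      rw [← Nat.div_add_mod a q, ← Nat.div_add_mod b q, h6, h3]

lemma g_le {p q : ℕ} (hq : 2 ≤ q) {β : ℝ} (hβ : 1 ≤ β) (hp : (p : ℝ) = (q : ℝ) ^ β) (k : ℕ) :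
    (g p q k : ℝ) ≤ (k : ℝ) ^ β := by
  induction k using Nat.strong_induction_on with
  | _ k ih =>
    rcases Nat.eq_zero_or_pos k with rfl | hk
    · simp only [g, Nat.digits_zero, Nat.ofDigits_nil, Nat.cast_zero]
      exact Real.rpow_nonneg le_rfl _
    · rw [g_rec hq]
      have h1 := ih (k / q) (Nat.div_lt_self hk (by omega))
      push_cast
      have h2 : ((k % q : ℕ) : ℝ) ≤ ((k % q : ℕ) : ℝ) ^ β := by
        rcases Nat.eq_zero_or_pos (k % q) with h | h
        · rw [h]
          simp only [Nat.cast_zero]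
          exact Real.rpow_nonneg le_rfl _
        · exact Real.self_le_rpow_of_one_le (by exact_mod_cast h) hβ
      have h3 : (p : ℝ) * g p q (k / q) ≤ ((q : ℝ) * (k / q : ℕ)) ^ β := by
        rw [Real.mul_rpow (by positivity) (by positivity), ← hp]
        exact mul_le_mul_of_nonneg_left h1 (by positivity)
      have h4 := Real.add_rpow_le_rpow_add (p := β) (a := ((k % q : ℕ) : ℝ))
        (b := (q : ℝ) * (k / q : ℕ)) (by positivity) (by positivity) hβ
      have h5 : (((k % q : ℕ) : ℝ) + (q : ℝ) * (k / q : ℕ)) = (k : ℝ) := by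
        have := Nat.mod_add_div k q
        exact_mod_cast this
      rw [h5] at h4
      linarith

/-- there is no progression with `p - 1` terms among numbers whose digits are `< p - 2` -/
lemma no_ap {p : ℕ} (hp : p.Prime) (hp5 : 5 ≤ p) (S : Finset ℤ)
    (hS : ∀ s ∈ S, ∃ n : ℕ, s = n + 2 ∧ ∀ j, n / p ^ j % p < p - 2) :
    ¬ HasAP S (p - 2 + 1) := by
  rintro ⟨a, d, hd, h⟩
  have hpp : p - 2 + 1 = p - 1 := by omega
  rw [hpp] at h
  obtain ⟨n0, hn0, -⟩ := hS _ (h 0 (by omega))
  simp only [Nat.cast_zero, zero_mul, add_zero] at hn0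
  obtain ⟨e, rfl⟩ : ∃ e : ℕ, d = e := ⟨d.toNat, by omega⟩
  have he : e ≠ 0 := by omega
  obtain ⟨j, e', hpe, hee⟩ := Nat.exists_eq_pow_mul_and_not_dvd he p hp.ne_one
  have hdig : ∀ i, i < p - 1 → (n0 / p ^ j + i * e') % p < p - 2 := by
    intro i hi
    obtain ⟨n, hn, hn2⟩ := hS _ (h i hi)
    have h1 : n = n0 + i * e := by
      have : (n : ℤ) = n0 + i * e := by
        rw [hn0] at hn
        linarith
      exact_mod_cast this
    have h2 := hn2 j
    have h3 : n0 + i * e = n0 + p ^ j * (i * e') := by rw [hee]; ring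
    rw [h1, h3, Nat.add_mul_div_left _ _ (Nat.pow_pos hp.pos)] at h2
    exact h2
  have hcard : (Finset.range (p - 1)).card ≤ (Finset.range (p - 2)).card := by
    apply Finset.card_le_card_of_injOn (fun i => (n0 / p ^ j + i * e') % p)
    · intro i hi
      simpa using hdig i (by simpa using hi)
    · intro i hi i' hi' hii
      have hi1 : i < p - 1 := by simpa using hi
      have hi2 : i' < p - 1 := by simpa using hi'
      have h1 : n0 / p ^ j + i * e' ≡ n0 / p ^ j + i' * e' [MOD p] := hii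
      have h2 : i * e' ≡ i' * e' [MOD p] := Nat.ModEq.add_left_cancel' _ h1
      have h3 : i ≡ i' [MOD p] := by
        apply Nat.ModEq.cancel_right_of_coprime _ h2
        exact (Nat.Prime.coprime_iff_not_dvd hp).2 hpe
      have h4 : i % p = i' % p := h3
      rw [Nat.mod_eq_of_lt (by omega), Nat.mod_eq_of_lt (by omega)] at h4
      exact h4
  simp at hcard
  omega

/-- the construction -/
lemma exists_set {p : ℕ} (hp : p.Prime) (hp5 : 5 ≤ p) {θ : ℝ}
    (hθ : 1 - Real.log (((p : ℝ) - 1) / 2) / Real.log p ≤ θ) (N : ℕ) (hN : 1 ≤ N) :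
    ∃ A : Finset ℤ, A ⊆ Finset.Icc 1 (N : ℤ) ∧ A.card = ⌊(N : ℝ) ^ (1 - θ)⌋₊ ∧
      lp (A + A) ≤ p - 2 := by
  obtain ⟨q, hq⟩ : ∃ q, p = 2 * q + 1 := by
    have := hp.odd_of_ne_two (by omega)
    exact this
  have hq2 : 2 ≤ q := by omega
  have hqr : ((p : ℝ) - 1) / 2 = q := by rw [hq]; push_cast; ring
  rw [hqr] at hθ
  have hlogq : 0 < Real.log q := Real.log_pos (by exact_mod_cast hq2)
  have hlogp : 0 < Real.log p := Real.log_pos (by exact_mod_cast (by omega : 1 < p))
  have hqp : Real.log q ≤ Real.log p := by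
    apply Real.log_le_log (by positivity)
    exact_mod_cast (by omega : q ≤ p)
  set β : ℝ := Real.log p / Real.log q with hβ
  have hβ1 : 1 ≤ β := by rw [hβ, le_div_iff₀ hlogq]; linarith
  have hpβ : (p : ℝ) = (q : ℝ) ^ β := by
    rw [Real.rpow_def_of_pos (by positivity), hβ, mul_div_cancel₀ _ hlogq.ne',
      Real.exp_log (by positivity)]
  set K : ℕ := ⌊(N : ℝ) ^ (1 - θ)⌋₊ with hK
  have hN1 : (1 : ℝ) ≤ N := by exact_mod_cast hN
  have hKN : (K : ℝ) ^ β ≤ N := by
    have h1 : (K : ℝ) ≤ (N : ℝ) ^ (1 - θ) := Nat.floor_le (by positivity)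
    have h2 : (N : ℝ) ^ (1 - θ) ≤ (N : ℝ) ^ (1 / β) := by
      apply Real.rpow_le_rpow_of_exponent_le hN1
      have : 1 / β = Real.log q / Real.log p := by rw [hβ, one_div_div]
      rw [this]
      linarith
    calc (K : ℝ) ^ β ≤ ((N : ℝ) ^ (1 / β)) ^ β :=
          Real.rpow_le_rpow (by positivity) (h1.trans h2) (by linarith)
      _ = N := by
          rw [← Real.rpow_mul (by positivity), one_div_mul_cancel (by linarith : β ≠ 0),
            Real.rpow_one]
  refine ⟨(Finset.range K).image fun k => ((g p q k : ℕ) : ℤ) + 1, ?_, ?_, ?_⟩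
  · intro s hs
    obtain ⟨k, hk, rfl⟩ := Finset.mem_image.1 hs
    have hkK : k < K := by simpa using hk
    have h1 := g_le hq2 hβ1 hpβ k
    have h2 := Real.add_rpow_le_rpow_add (p := β) (a := (k : ℝ)) (b := 1) (by positivity)
      (by positivity) hβ1
    have h3 : ((k : ℝ) + 1) ^ β ≤ (K : ℝ) ^ β := by
      apply Real.rpow_le_rpow (by positivity) _ (by linarith)
      exact_mod_cast hkK
    rw [Real.one_rpow] at h2
    have h4 : ((g p q k : ℕ) : ℝ) + 1 ≤ N := by linarith
    have h5 : g p q k + 1 ≤ N := by exact_mod_cast h4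
    rw [Finset.mem_Icc]
    constructor
    · omega
    · exact_mod_cast h5
  · rw [Finset.card_image_of_injective, Finset.card_range]
    intro a b hab
    apply g_inj hq2 (by omega : q ≤ p)
    simpa using hab
  · apply lp_lt
    apply no_ap hp hp5
    intro s hs
    obtain ⟨x, hx, y, hy, rfl⟩ := Finset.mem_add.1 hs
    obtain ⟨k, -, rfl⟩ := Finset.mem_image.1 hx
    obtain ⟨m, -, rfl⟩ := Finset.mem_image.1 hy
    refine ⟨g p q k + g p q m, by push_cast; ring, fun j => ?_⟩
    have := good_add hp.pos (by omega) (g_good hq2 (by omega : q ≤ p) k)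
      (g_good hq2 (by omega : q ≤ p) m) j
    omega

lemma l_le {p : ℕ} (hp : p.Prime) (hp5 : 5 ≤ p) {θ : ℝ}
    (hθ : 1 - Real.log (((p : ℝ) - 1) / 2) / Real.log p ≤ θ) : l θ ≤ ((p - 2 : ℕ) : ℕ∞) := by
  apply Filter.limsup_le_of_le
  · isBoundedDefault
  · filter_upwards [eventually_ge_atTop 1] with N hN
    obtain ⟨A, h1, h2, h3⟩ := exists_set hp hp5 hθ N hN
    have h4 : minLp θ N ≤ lp (A + A) := Nat.sInf_le ⟨A, h1, h2, rfl⟩
    exact_mod_cast h4.trans h3

lemma three_le_l {θ : ℝ} (hθ : 1 - Real.log 2 / Real.log 5 ≤ θ) (hθ1 : θ < 1) :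
    (3 : ℕ∞) ≤ l θ := by
  have hθ' : 1 - Real.log ((((5 : ℕ) : ℝ) - 1) / 2) / Real.log ((5 : ℕ) : ℝ) ≤ θ := by
    norm_num
    linarith
  have htend : Tendsto (fun N : ℕ => (N : ℝ) ^ (1 - θ)) atTop atTop :=
    (tendsto_rpow_atTop (by linarith)).comp tendsto_natCast_atTop_atTop
  have hev : ∀ᶠ N : ℕ in atTop, (3 : ℕ∞) ≤ (minLp θ N : ℕ∞) := by
    filter_upwards [eventually_ge_atTop 1, htend.eventually_ge_atTop 2] with N hN hN2
    obtain ⟨A0, h1, h2, -⟩ := exists_set (by norm_num : (5 : ℕ).Prime) le_rfl hθ' N hN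
    have hmem : minLp θ N ∈ {m | ∃ A : Finset ℤ, A ⊆ Finset.Icc 1 (N : ℤ) ∧
        A.card = ⌊(N : ℝ) ^ (1 - θ)⌋₊ ∧ m = lp (A + A)} :=
      Nat.sInf_mem ⟨_, A0, h1, h2, rfl⟩
    obtain ⟨A, -, h4, h5⟩ := hmem
    have h6 : 2 ≤ A.card := by
      rw [h4]
      exact Nat.le_floor (by exact_mod_cast hN2)
    have h7 := three_le_lp h6
    rw [h5]
    exact_mod_cast h7
  calc (3 : ℕ∞) ≤ liminf (fun N : ℕ => (minLp θ N : ℕ∞)) atTop := by
        apply Filter.le_liminf_of_le
        · isBoundedDefault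
        · exact hev
    _ ≤ l θ := Filter.liminf_le_limsup

end Pool.Agent.Results.MP_56a425_co.ExactValue

open Pool.Agent.Results.MP_56a425_co.ExactValue in
theorem Pool.Agent.Results.MP_56a425_co.ExactValue.result :
    (∀ θ : ℝ, 1 - Real.log 2 / Real.log 5 ≤ θ → θ < 1 → l θ = 3) ∧
    (∀ p : ℕ, p.Prime → 5 ≤ p → ∀ θ : ℝ,
      1 - Real.log (((p : ℝ) - 1) / 2) / Real.log p ≤ θ → l θ ≤ ((p - 2 : ℕ) : ℕ∞)) := by
  refine ⟨fun θ h1 h2 => le_antisymm ?_ (three_le_l h1 h2), fun p hp hp5 θ h => l_le hp hp5 h⟩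
  have h3 := l_le (θ := θ) (by norm_num : (5 : ℕ).Prime) le_rfl (by norm_num; linarith)
  exact_mod_cast h3
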